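import Pool.Agent.P.MP_8f2c45_lc.Main
import Pool.Agent.P.MP_8f2c45_lc.Approx
import Pool.Agent.P.MP_8f2c45_lc.Golden
import Pool.Agent.P.MP_8f2c45_lc.Exists

/-!
For every noncomputable K-trivial set `A` some deep set is `A`-shallow (alternative (b)).
-/

namespace Pool.Agent.Results.MP_8f2c45_lc.DeepShallow

open Pool.Agent.P.MP_8f2c45_lc

/-- The hypothesis on the machine is not vacuous: universal machines exist. -/
theorem universal_exists : ∃ U : Machine, Universal U := exists_universal

theorem result (U : Machine) (hU : Universal U) (A : ℕ → Bool) (hA : ¬ Computable A)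
    (hK : KTrivial U A) : ∃ X : ℕ → Bool, Deep U emptyOracle X ∧ ¬ Deep U A X := by
  obtain ⟨S, L1, g, hg, hgm, L2⟩ := exists_setting U hU
  have hKH : ∀ B y, K U B y = (S.KH B y : ℕ∞) := by
    intro B y
    apply le_antisymm
    · obtain ⟨p, n, hp, hn⟩ := S.KH_spec B y
      rw [← hp]
      exact iInf₂_le p ⟨n, L1 _ _ _ _ hn⟩
    · refine le_iInf₂ fun p ⟨s, hs⟩ => ?_
      exact_mod_cast Setting.KH_le (L2 _ _ _ _ hs)
  obtain ⟨b, hb⟩ := hK
  obtain ⟨a, h1, h2, h3, h4⟩ := S.exists_approx A b fun n => by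
    have := hb n
    rw [hKH, hKH] at this
    exact_mod_cast this
  obtain ⟨cl, hlow⟩ := S.low_of_approx A b a h1 h2 h3 h4
  obtain ⟨X, hdeep, t0, C, ht0, hm0, hsh⟩ := S.exists_deep_shallow hA hlow
  obtain ⟨c0, hc0⟩ := S.KH_le_two_mul
  refine ⟨X, fun t ht _ c => ?_, fun h => ?_⟩
  · have hT : Computable fun m => g (2 * m + c0 + c + t m) :=
      hg.comp (Primrec.nat_add.to_comp.comp (Primrec.to_comp (by fun_prop)) ht)
    filter_upwards [hdeep _ hT c] with n hn
    rw [hKH]
    refine le_iInf₂ fun p hp => ?_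
    have : S.KH emptyOracle (pre X n) + c ≤ p.length := by
      by_cases hl : p.length ≤ 2 * (pre X n).length + c0 + c
      · refine hn p ?_
        rw [Setting.H0_eq]
        exact Setting.mono_pre (hgm (by omega)) (L2 _ _ _ _ hp)
      · have := hc0 emptyOracle (pre X n)
        omega
    exact_mod_cast this
  · obtain ⟨n, ⟨x, hx, hl⟩, hn⟩ := (hsh.and_eventually (h t0 ht0 hm0 (C + 1))).exists
    have h5 : Kt U A t0 (pre X n) ≤ x.length :=
      iInf₂_le x (by rw [length_pre]; exact L1 _ _ _ _ hx)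
    rw [hKH] at hn
    have h6 : S.KH A (pre X n) + (C + 1) ≤ x.length := by exact_mod_cast hn.trans h5
    omega

end Pool.Agent.Results.MP_8f2c45_lc.DeepShallow
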